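import Pool.Agent.Helper97.RK.Stmts

/-! MP_798d7d_nt: module SIEVE. -/

set_option autoImplicit false

namespace Pool.Agent.Helper97.RK

/-- pairwise congruent numbers in an interval -/
theorem sv_pair (m N : ℕ) (hm : 0 < m) (A : Finset ℕ) (hA : A ⊆ Finset.range N)
    (h : ∀ a ∈ A, ∀ b ∈ A, a ≡ b [MOD m]) : A.card ≤ N / m + 1 := by
  rcases A.eq_empty_or_nonempty with rfl | ⟨a0, ha0⟩
  · simp
  · have hsub : A ⊆ (Finset.range N).filter (fun a => a ≡ a0 [MOD m]) := by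
      intro a ha
      exact Finset.mem_filter.2 ⟨hA ha, h a ha a0 ha0⟩
    refine (Finset.card_le_card hsub).trans ?_
    rw [← Nat.count_eq_card_filter_range, Nat.count_modEq_card N hm]
    split_ifs <;> omega

/-- primes `≥ 29` do not divide `MM` -/
theorem sv_MM (q : ℕ) (hq : q.Prime) (h29 : 29 ≤ q) : ¬ (q : ℤ) ∣ MM := by
  intro h
  have h1 : q ∣ 223092870 := by
    have h2 : (q : ℤ) ∣ ((223092870 : ℕ) : ℤ) := by
      simpa [MM] using h
    exact Int.natCast_dvd_natCast.1 h2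
  have h3 : (223092870 : ℕ) ∣ Nat.factorial 23 := by
    norm_num [Nat.factorial]
  have h4 := (hq.dvd_factorial).1 (h1.trans h3)
  omega

/-- cancelling `MM` in congruences -/
theorem sv_cong (q j : ℕ) (hq : q.Prime) (h29 : 29 ≤ q) (a b : ℕ)
    (h : (q : ℤ) ^ j ∣ MM * ((a : ℤ) - b)) : a ≡ b [MOD q ^ j] := by
  have hp : Prime (q : ℤ) := Nat.prime_iff_prime_int.1 hq
  have hco : IsCoprime ((q : ℤ) ^ j) MM :=
    ((Prime.coprime_iff_not_dvd hp).2 (sv_MM q hq h29)).pow_left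
  have h1 : (q : ℤ) ^ j ∣ (a : ℤ) - b := hco.dvd_of_dvd_mul_left h
  apply (Nat.modEq_iff_dvd.2 _).symm
  push_cast
  exact h1

/-- the values of `p` if `q` does not divide `D` -/
theorem sv_b (q N : ℕ) (hq : q.Prime) (h29 : 29 ≤ q) (D : ℤ) (hD : ¬ (q : ℤ) ∣ D) :
    ((Finset.range N).filter (fun b : ℕ => (q : ℤ) ^ 2 ∣ (4 + MM * b) ^ 2 + 27 * D)).card ≤
      2 * (N / q ^ 2 + 1) := by
  classical
  have hp : Prime (q : ℤ) := Nat.prime_iff_prime_int.1 hq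
  have hq2 : 0 < q ^ 2 := pow_pos hq.pos 2
  rcases ((Finset.range N).filter (fun b : ℕ => (q : ℤ) ^ 2 ∣ (4 + MM * b) ^ 2 +
    27 * D)).eq_empty_or_nonempty with h | ⟨b1, hb1⟩
  · rw [h]
    simp
  · have hb1' := (Finset.mem_filter.1 hb1).2
    have hqn : ∀ b : ℕ, (q : ℤ) ^ 2 ∣ (4 + MM * b) ^ 2 + 27 * D → ¬ (q : ℤ) ∣ 4 + MM * b := by
      intro b hb h
      have h1 : (q : ℤ) ∣ (4 + MM * b) ^ 2 + 27 * D := (dvd_pow_self _ two_ne_zero).trans hb
      have h2 : (q : ℤ) ∣ 27 * D := by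
        have h3 : (q : ℤ) ∣ (4 + MM * b) ^ 2 := dvd_pow h two_ne_zero
        exact (dvd_add_right h3).1 h1
      rcases hp.dvd_or_dvd h2 with h3 | h3
      · have h4 : (q : ℤ) ∣ ((27 : ℕ) : ℤ) := by exact_mod_cast h3
        have h5 := Nat.le_of_dvd (by norm_num) (Int.natCast_dvd_natCast.1 h4)
        omega
      · exact hD h3
    have hsplit : ∀ b : ℕ, (q : ℤ) ^ 2 ∣ (4 + MM * b) ^ 2 + 27 * D →
        (q : ℤ) ^ 2 ∣ MM * ((b : ℤ) - b1) ∨ (q : ℤ) ^ 2 ∣ 8 + MM * ((b : ℤ) + b1) := by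
      intro b hb
      have h1 : (q : ℤ) ^ 2 ∣ (MM * ((b : ℤ) - b1)) * (8 + MM * ((b : ℤ) + b1)) := by
        have h2 := dvd_sub hb hb1'
        have h3 : (4 + MM * (b : ℤ)) ^ 2 + 27 * D - ((4 + MM * (b1 : ℤ)) ^ 2 + 27 * D) =
            (MM * ((b : ℤ) - b1)) * (8 + MM * ((b : ℤ) + b1)) := by ring
        rw [h3] at h2
        exact h2
      by_cases h4 : (q : ℤ) ∣ MM * ((b : ℤ) - b1)
      · left
        have h5 : ¬ (q : ℤ) ∣ 8 + MM * ((b : ℤ) + b1) := by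
          intro h6
          have h7 : (q : ℤ) ∣ 2 * (4 + MM * b) := by
            have h8 := dvd_add h4 h6
            have h9 : MM * ((b : ℤ) - b1) + (8 + MM * ((b : ℤ) + b1)) = 2 * (4 + MM * b) := by ring
            rw [h9] at h8
            exact h8
          rcases hp.dvd_or_dvd h7 with h8 | h8
          · have h9 : (q : ℤ) ∣ ((2 : ℕ) : ℤ) := by exact_mod_cast h8
            have h10 := Nat.le_of_dvd (by norm_num) (Int.natCast_dvd_natCast.1 h9)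
            omega
          · exact hqn b hb h8
        have hco : IsCoprime ((q : ℤ) ^ 2) (8 + MM * ((b : ℤ) + b1)) :=
          ((Prime.coprime_iff_not_dvd hp).2 h5).pow_left
        exact hco.dvd_of_dvd_mul_right h1
      · right
        have hco : IsCoprime ((q : ℤ) ^ 2) (MM * ((b : ℤ) - b1)) :=
          ((Prime.coprime_iff_not_dvd hp).2 h4).pow_left
        exact hco.dvd_of_dvd_mul_left h1
    have hA1 : ((Finset.range N).filter (fun b : ℕ =>
        (q : ℤ) ^ 2 ∣ MM * ((b : ℤ) - b1))).card ≤ N / q ^ 2 + 1 := by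
      apply sv_pair _ _ hq2 _ (Finset.filter_subset _ _)
      intro a ha b hb
      exact (sv_cong q 2 hq h29 a b1 (Finset.mem_filter.1 ha).2).trans
        (sv_cong q 2 hq h29 b b1 (Finset.mem_filter.1 hb).2).symm
    have hA2 : ((Finset.range N).filter (fun b : ℕ =>
        (q : ℤ) ^ 2 ∣ 8 + MM * ((b : ℤ) + b1))).card ≤ N / q ^ 2 + 1 := by
      apply sv_pair _ _ hq2 _ (Finset.filter_subset _ _)
      intro a ha b hb
      apply sv_cong q 2 hq h29 a b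
      have h1 := dvd_sub (Finset.mem_filter.1 ha).2 (Finset.mem_filter.1 hb).2
      have h2 : 8 + MM * ((a : ℤ) + b1) - (8 + MM * ((b : ℤ) + b1)) = MM * ((a : ℤ) - b) := by ring
      rw [h2] at h1
      exact h1
    have hsub : (Finset.range N).filter (fun b : ℕ => (q : ℤ) ^ 2 ∣ (4 + MM * b) ^ 2 + 27 * D) ⊆
        (Finset.range N).filter (fun b : ℕ => (q : ℤ) ^ 2 ∣ MM * ((b : ℤ) - b1)) ∪
        (Finset.range N).filter (fun b : ℕ => (q : ℤ) ^ 2 ∣ 8 + MM * ((b : ℤ) + b1)) := by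
      intro b hb
      obtain ⟨hb1, hb2⟩ := Finset.mem_filter.1 hb
      rcases hsplit b hb2 with h | h
      · exact Finset.mem_union_left _ (Finset.mem_filter.2 ⟨hb1, h⟩)
      · exact Finset.mem_union_right _ (Finset.mem_filter.2 ⟨hb1, h⟩)
    calc _ ≤ _ := Finset.card_le_card hsub
      _ ≤ _ := Finset.card_union_le _ _
      _ ≤ (N / q ^ 2 + 1) + (N / q ^ 2 + 1) := Nat.add_le_add hA1 hA2
      _ = 2 * (N / q ^ 2 + 1) := by ring

/-- the values of `p` if `q` divides `D` -/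
theorem sv_b' (q N : ℕ) (hq : q.Prime) (h29 : 29 ≤ q) (D : ℤ) (hD : (q : ℤ) ∣ D) :
    ((Finset.range N).filter (fun b : ℕ => (q : ℤ) ^ 2 ∣ (4 + MM * b) ^ 2 + 27 * D)).card ≤
      N / q + 1 := by
  have hp : Prime (q : ℤ) := Nat.prime_iff_prime_int.1 hq
  apply sv_pair _ _ hq.pos _ (Finset.filter_subset _ _)
  have hdiv : ∀ b : ℕ, (q : ℤ) ^ 2 ∣ (4 + MM * b) ^ 2 + 27 * D → (q : ℤ) ∣ 4 + MM * b := by
    intro b hb
    have h1 : (q : ℤ) ∣ (4 + MM * b) ^ 2 + 27 * D := (dvd_pow_self _ two_ne_zero).trans hb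
    have h2 : (q : ℤ) ∣ (4 + MM * b) ^ 2 := (dvd_add_left (hD.mul_left 27)).1 h1
    exact hp.dvd_of_dvd_pow h2
  intro a ha b hb
  have h1 := dvd_sub (hdiv a (Finset.mem_filter.1 ha).2) (hdiv b (Finset.mem_filter.1 hb).2)
  have h2 : 4 + MM * (a : ℤ) - (4 + MM * (b : ℤ)) = MM * ((a : ℤ) - b) := by ring
  rw [h2] at h1
  have h3 := sv_cong q 1 hq h29 a b (by rw [pow_one]; exact h1)
  rw [pow_one] at h3
  exact h3

/-- the values of `k` with `q ∣ D` -/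
theorem sv_a (q n : ℕ) (hq : q.Prime) (h29 : 29 ≤ q) (e2 e4 : ℤ) :
    ((Finset.range n).filter (fun a : ℕ => (q : ℤ) ∣ 12 * e4 +
      ((2 + MM * a) ^ 2 + e2) ^ 2)).card ≤ 4 * (n / q + 1) := by
  classical
  have : Fact q.Prime := ⟨hq⟩
  set S := (Finset.range n).filter (fun a : ℕ => (q : ℤ) ∣ 12 * e4 +
      ((2 + MM * a) ^ 2 + e2) ^ 2) with hS
  have h1 : S.card ≤ (n / q + 1) * (S.image (fun a : ℕ => ((2 + MM * a : ℤ) : ZMod q))).card := by
    apply Finset.card_le_mul_card_image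
    intro c _
    apply sv_pair _ _ hq.pos
    · exact (Finset.filter_subset _ _).trans (Finset.filter_subset _ _)
    · intro a ha b hb
      have h2 := (Finset.mem_filter.1 ha).2.trans (Finset.mem_filter.1 hb).2.symm
      have h3 : (q : ℤ) ∣ (2 + MM * (a : ℤ)) - (2 + MM * (b : ℤ)) :=
        (ZMod.intCast_eq_intCast_iff_dvd_sub _ _ q).1 h2.symm
      have h4 : 2 + MM * (a : ℤ) - (2 + MM * (b : ℤ)) = MM * ((a : ℤ) - b) := by ring
      rw [h4] at h3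
      have h5 := sv_cong q 1 hq h29 a b (by rw [pow_one]; exact h3)
      rw [pow_one] at h5
      exact h5
  have h2 : (S.image (fun a : ℕ => ((2 + MM * a : ℤ) : ZMod q))).card ≤ 4 := by
    have hdeg : ((Polynomial.X ^ 2 + Polynomial.C (e2 : ZMod q)) ^ 2 +
        Polynomial.C (12 * (e4 : ZMod q)) : Polynomial (ZMod q)).natDegree ≤ 4 := by
      compute_degree
    have hmon : ((Polynomial.X ^ 2 + Polynomial.C (e2 : ZMod q)) ^ 2 +
        Polynomial.C (12 * (e4 : ZMod q)) : Polynomial (ZMod q)).Monic := by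
      monicity!
    have hsub : S.image (fun a : ℕ => ((2 + MM * a : ℤ) : ZMod q)) ⊆
        ((Polynomial.X ^ 2 + Polynomial.C (e2 : ZMod q)) ^ 2 +
        Polynomial.C (12 * (e4 : ZMod q)) : Polynomial (ZMod q)).roots.toFinset := by
      intro c hc
      obtain ⟨a, ha, rfl⟩ := Finset.mem_image.1 hc
      rw [Multiset.mem_toFinset, Polynomial.mem_roots hmon.ne_zero, Polynomial.IsRoot.def]
      have h3 := (Finset.mem_filter.1 ha).2
      have h4 := (ZMod.intCast_zmod_eq_zero_iff_dvd _ q).2 h3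
      simp only [Polynomial.eval_add, Polynomial.eval_pow, Polynomial.eval_X, Polynomial.eval_C]
      rw [← h4]
      push_cast
      ring
    calc _ ≤ _ := Finset.card_le_card hsub
      _ ≤ _ := Multiset.toFinset_card_le _
      _ ≤ _ := Polynomial.card_roots' _
      _ ≤ 4 := hdeg
  calc S.card ≤ _ := h1
    _ ≤ (n / q + 1) * 4 := Nat.mul_le_mul_left _ h2
    _ = 4 * (n / q + 1) := by ring

/-- the pairs for one prime -/
theorem sv_q (q n : ℕ) (hq : q.Prime) (h29 : 29 ≤ q) (e2 e4 : ℤ) :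
    ((Finset.range n ×ˢ Finset.range (n ^ 2)).filter (fun t : ℕ × ℕ =>
      (q : ℤ) ^ 2 ∣ cA (2 + MM * t.1) (4 + MM * t.2) e2 e4)).card ≤
      n * (2 * (n ^ 2 / q ^ 2 + 1)) + 4 * (n / q + 1) * (n ^ 2 / q + 1) := by
  classical
  have hiff : ∀ a b : ℕ, ((q : ℤ) ^ 2 ∣ cA (2 + MM * a) (4 + MM * b) e2 e4 ↔
      (q : ℤ) ^ 2 ∣ (4 + MM * b) ^ 2 + 27 * (12 * e4 + ((2 + MM * a) ^ 2 + e2) ^ 2)) := by
    intro a b
    have : cA (2 + MM * a) (4 + MM * b) e2 e4 =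
        -((4 + MM * b) ^ 2 + 27 * (12 * e4 + ((2 + MM * a) ^ 2 + e2) ^ 2)) := by
      unfold cA
      ring
    rw [this, dvd_neg]
  have hrow : ((Finset.range n ×ˢ Finset.range (n ^ 2)).filter (fun t : ℕ × ℕ =>
      (q : ℤ) ^ 2 ∣ cA (2 + MM * t.1) (4 + MM * t.2) e2 e4)).card =
      ∑ a ∈ Finset.range n, ((Finset.range (n ^ 2)).filter (fun b : ℕ =>
        (q : ℤ) ^ 2 ∣ (4 + MM * b) ^ 2 + 27 * (12 * e4 + ((2 + MM * a) ^ 2 + e2) ^ 2))).card := by
    rw [Finset.card_filter, Finset.sum_product]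
    refine Finset.sum_congr rfl fun a _ => ?_
    rw [Finset.card_filter]
    refine Finset.sum_congr rfl fun b _ => ?_
    simp only [hiff]
  rw [hrow]
  have hterm : ∀ a ∈ Finset.range n, ((Finset.range (n ^ 2)).filter (fun b : ℕ =>
        (q : ℤ) ^ 2 ∣ (4 + MM * b) ^ 2 + 27 * (12 * e4 + ((2 + MM * a) ^ 2 + e2) ^ 2))).card ≤
      2 * (n ^ 2 / q ^ 2 + 1) + (if (q : ℤ) ∣ 12 * e4 + ((2 + MM * a) ^ 2 + e2) ^ 2 then 1 else 0) *
        (n ^ 2 / q + 1) := by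
    intro a _
    by_cases h : (q : ℤ) ∣ 12 * e4 + ((2 + MM * a) ^ 2 + e2) ^ 2
    · rw [if_pos h, one_mul]
      exact (sv_b' q (n ^ 2) hq h29 _ h).trans (Nat.le_add_left _ _)
    · rw [if_neg h, zero_mul, add_zero]
      exact sv_b q (n ^ 2) hq h29 _ h
  refine (Finset.sum_le_sum hterm).trans ?_
  rw [Finset.sum_add_distrib, Finset.sum_const, Finset.card_range, smul_eq_mul,
    ← Finset.sum_mul, ← Finset.card_filter]
  exact Nat.add_le_add_left (Nat.mul_le_mul_right _ (sv_a q n hq h29 e2 e4)) _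

/-- the sum of the reciprocals of the squares -/
theorem sv_sq (N : ℕ) : ∑ q ∈ Finset.Icc 29 N, 1 / (q : ℝ) ^ 2 ≤ 1 / 28 := by
  rcases Nat.lt_or_ge N 28 with h | h
  · rw [Finset.Icc_eq_empty (by omega)]
    norm_num
  · have key : ∀ N : ℕ, 28 ≤ N → ∑ q ∈ Finset.Icc 29 N, 1 / (q : ℝ) ^ 2 ≤ 1 / 28 - 1 / (N : ℝ) := by
      intro N hN
      induction N, hN using Nat.le_induction with
      | base => simp
      | succ m hm ih =>
        rw [Finset.sum_Icc_succ_top (by omega : 29 ≤ m + 1)]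
        have hm0 : (0 : ℝ) < m := by
          have : 0 < m := by omega
          exact_mod_cast this
        have h1 : 1 / ((m + 1 : ℕ) : ℝ) ^ 2 ≤ 1 / (m : ℝ) - 1 / ((m + 1 : ℕ) : ℝ) := by
          push_cast
          rw [div_sub_div _ _ (by positivity) (by positivity), div_le_div_iff₀ (by positivity)
            (by positivity)]
          nlinarith
        linarith
    have h1 := key N h
    have h2 : (0 : ℝ) ≤ 1 / (N : ℝ) := by positivity
    linarith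

/-- the sum of the reciprocals -/
theorem sv_rec (N K : ℕ) (hK : 0 < K) :
    ∑ q ∈ Finset.Icc 29 N, 1 / (q : ℝ) ≤ K + (N : ℝ) / K := by
  classical
  have hK' : (0 : ℝ) < K := by exact_mod_cast hK
  have hterm : ∀ q ∈ Finset.Icc 29 N, 1 / (q : ℝ) ≤ (if q ≤ K then (1 : ℝ) else 0) + 1 / K := by
    intro q hq
    have hq1 : 29 ≤ q := (Finset.mem_Icc.1 hq).1
    have hq2 : (1 : ℝ) ≤ q := by
      have : 1 ≤ q := by omega
      exact_mod_cast this
    by_cases h : q ≤ K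
    · rw [if_pos h]
      have h1 : 1 / (q : ℝ) ≤ 1 := by
        rw [div_le_one (by linarith)]
        exact hq2
      have h2 : (0 : ℝ) ≤ 1 / K := by positivity
      linarith
    · rw [if_neg h, zero_add]
      apply one_div_le_one_div_of_le hK'
      have : K ≤ q := by omega
      exact_mod_cast this
  refine (Finset.sum_le_sum hterm).trans ?_
  rw [Finset.sum_add_distrib, Finset.sum_const, nsmul_eq_mul]
  have h1 : ∑ q ∈ Finset.Icc 29 N, (if q ≤ K then (1 : ℝ) else 0) ≤ K := by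
    rw [← Finset.sum_filter, Finset.sum_const, nsmul_eq_mul, mul_one]
    have hsub : (Finset.Icc 29 N).filter (fun q => q ≤ K) ⊆ Finset.Icc 1 K := by
      intro q hq
      obtain ⟨h1, h2⟩ := Finset.mem_filter.1 hq
      have := (Finset.mem_Icc.1 h1).1
      exact Finset.mem_Icc.2 ⟨by omega, h2⟩
    have := Finset.card_le_card hsub
    rw [Nat.card_Icc] at this
    have h3 : ((Finset.Icc 29 N).filter (fun q => q ≤ K)).card ≤ K := by omega
    exact_mod_cast h3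
  have h2 : (((Finset.Icc 29 N).card : ℕ) : ℝ) ≤ N := by
    rw [Nat.card_Icc]
    have : N + 1 - 29 ≤ N := by omega
    exact_mod_cast this
  have h3 : (((Finset.Icc 29 N).card : ℕ) : ℝ) * (1 / K) ≤ (N : ℝ) / K := by
    rw [mul_one_div]
    exact div_le_div_of_nonneg_right h2 hK'.le
  linarith

theorem st_SIEVE : ST_SIEVE := by
  classical
  intro C
  refine ⟨3 * (12 * C + 16 * (112 * C + 1)) + 1, ?_⟩
  intro n hn e2 e4
  have hn1 : 1 ≤ n := by omega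
  -- union bound
  have hub : ((Finset.range n ×ˢ Finset.range (n ^ 2)).filter (fun t : ℕ × ℕ => ∃ q : ℕ, q.Prime ∧
      29 ≤ q ∧ q ≤ C * n ∧ (q : ℤ) ^ 2 ∣ cA (2 + MM * t.1) (4 + MM * t.2) e2 e4)).card ≤
      ∑ q ∈ (Finset.Icc 29 (C * n)).filter Nat.Prime,
        (n * (2 * (n ^ 2 / q ^ 2 + 1)) + 4 * (n / q + 1) * (n ^ 2 / q + 1)) := by
    have hsub : (Finset.range n ×ˢ Finset.range (n ^ 2)).filter (fun t : ℕ × ℕ => ∃ q : ℕ,
        q.Prime ∧ 29 ≤ q ∧ q ≤ C * n ∧ (q : ℤ) ^ 2 ∣ cA (2 + MM * t.1) (4 + MM * t.2) e2 e4) ⊆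
        ((Finset.Icc 29 (C * n)).filter Nat.Prime).biUnion (fun q =>
          (Finset.range n ×ˢ Finset.range (n ^ 2)).filter (fun t : ℕ × ℕ =>
            (q : ℤ) ^ 2 ∣ cA (2 + MM * t.1) (4 + MM * t.2) e2 e4)) := by
      intro t ht
      obtain ⟨h1, q, h2, h3, h4, h5⟩ := Finset.mem_filter.1 ht
      refine Finset.mem_biUnion.2 ⟨q, Finset.mem_filter.2 ⟨Finset.mem_Icc.2 ⟨h3, h4⟩, h2⟩, ?_⟩
      exact Finset.mem_filter.2 ⟨h1, h5⟩
    refine (Finset.card_le_card hsub).trans (Finset.card_biUnion_le.trans ?_)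
    apply Finset.sum_le_sum
    intro q hq
    obtain ⟨h1, h2⟩ := Finset.mem_filter.1 hq
    exact sv_q q n h2 (Finset.mem_Icc.1 h1).1 e2 e4
  have hn0 : (0 : ℝ) < n := by exact_mod_cast hn1
  have hn1' : (1 : ℝ) ≤ n := by exact_mod_cast hn1
  -- to the reals
  have hreal : ((∑ q ∈ (Finset.Icc 29 (C * n)).filter Nat.Prime,
        (n * (2 * (n ^ 2 / q ^ 2 + 1)) + 4 * (n / q + 1) * (n ^ 2 / q + 1)) : ℕ) : ℝ) ≤
      ∑ q ∈ Finset.Icc 29 (C * n), (6 * (n : ℝ) ^ 3 * (1 / (q : ℝ) ^ 2) +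
        8 * (n : ℝ) ^ 2 * (1 / (q : ℝ)) + (2 * n + 4)) := by
    rw [Nat.cast_sum]
    have hpos : ∀ q : ℕ, (0 : ℝ) ≤ 6 * (n : ℝ) ^ 3 * (1 / (q : ℝ) ^ 2) +
        8 * (n : ℝ) ^ 2 * (1 / (q : ℝ)) + (2 * n + 4) := by
      intro q
      positivity
    refine (Finset.sum_le_sum ?_).trans (Finset.sum_le_sum_of_subset_of_nonneg
      (Finset.filter_subset _ _) (fun q _ _ => hpos q))
    intro q hq
    have hq29 : 29 ≤ q := (Finset.mem_Icc.1 (Finset.mem_filter.1 hq).1).1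
    have hq0 : (0 : ℝ) < q := by
      have : 0 < q := by omega
      exact_mod_cast this
    have hd1 : ((n ^ 2 / q ^ 2 : ℕ) : ℝ) ≤ (n : ℝ) ^ 2 * (1 / (q : ℝ) ^ 2) := by
      have := @Nat.cast_div_le ℝ _ _ _ (n ^ 2) (q ^ 2)
      push_cast at this
      rw [mul_one_div]
      exact_mod_cast this
    have hd2 : ((n / q : ℕ) : ℝ) ≤ (n : ℝ) * (1 / (q : ℝ)) := by
      have := @Nat.cast_div_le ℝ _ _ _ n q
      rw [mul_one_div]
      exact this
    have hd3 : ((n ^ 2 / q : ℕ) : ℝ) ≤ (n : ℝ) ^ 2 * (1 / (q : ℝ)) := by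
      have := @Nat.cast_div_le ℝ _ _ _ (n ^ 2) q
      push_cast at this
      rw [mul_one_div]
      exact_mod_cast this
    push_cast
    have hx : (0 : ℝ) < 1 / (q : ℝ) := by positivity
    have hx2 : 1 / (q : ℝ) ^ 2 = (1 / (q : ℝ)) ^ 2 := by
      rw [one_div_pow]
    rw [hx2] at hd1 ⊢
    generalize (1 / (q : ℝ)) = x at hd1 hd2 hd3 hx ⊢
    have h1 : (n : ℝ) * (2 * (((n ^ 2 / q ^ 2 : ℕ) : ℝ) + 1)) ≤
        (n : ℝ) * (2 * ((n : ℝ) ^ 2 * x ^ 2 + 1)) := by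
      apply mul_le_mul_of_nonneg_left _ hn0.le
      linarith
    have h2 : 4 * (((n / q : ℕ) : ℝ) + 1) * (((n ^ 2 / q : ℕ) : ℝ) + 1) ≤
        4 * ((n : ℝ) * x + 1) * ((n : ℝ) ^ 2 * x + 1) := by
      apply mul_le_mul
      · linarith
      · linarith
      · positivity
      · positivity
    have h3 : (n : ℝ) * x ≤ (n : ℝ) ^ 2 * x := by
      apply mul_le_mul_of_nonneg_right _ hx.le
      nlinarith
    nlinarith [h1, h2, h3]
  have hsum : ∑ q ∈ Finset.Icc 29 (C * n), (6 * (n : ℝ) ^ 3 * (1 / (q : ℝ) ^ 2) +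
        8 * (n : ℝ) ^ 2 * (1 / (q : ℝ)) + (2 * n + 4)) ≤
      6 * (n : ℝ) ^ 3 * (1 / 28) + 8 * (n : ℝ) ^ 2 * (((112 * C + 1 : ℕ) : ℝ) +
        ((C * n : ℕ) : ℝ) / ((112 * C + 1 : ℕ) : ℝ)) + ((C * n : ℕ) : ℝ) * (2 * n + 4) := by
    rw [Finset.sum_add_distrib, Finset.sum_add_distrib, ← Finset.mul_sum, ← Finset.mul_sum,
      Finset.sum_const, nsmul_eq_mul]
    have h1 := mul_le_mul_of_nonneg_left (sv_sq (C * n)) (by positivity : (0 : ℝ) ≤ 6 * (n : ℝ) ^ 3)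
    have h2 := mul_le_mul_of_nonneg_left (sv_rec (C * n) (112 * C + 1) (by omega))
      (by positivity : (0 : ℝ) ≤ 8 * (n : ℝ) ^ 2)
    have h3 : (((Finset.Icc 29 (C * n)).card : ℕ) : ℝ) * (2 * n + 4) ≤
        ((C * n : ℕ) : ℝ) * (2 * n + 4) := by
      apply mul_le_mul_of_nonneg_right _ (by positivity)
      rw [Nat.card_Icc]
      have : C * n + 1 - 29 ≤ C * n := by omega
      exact_mod_cast this
    linarith
  have hfin : 2 * (6 * (n : ℝ) ^ 3 * (1 / 28) + 8 * (n : ℝ) ^ 2 * (((112 * C + 1 : ℕ) : ℝ) +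
        ((C * n : ℕ) : ℝ) / ((112 * C + 1 : ℕ) : ℝ)) + ((C * n : ℕ) : ℝ) * (2 * n + 4)) ≤
      (n : ℝ) ^ 3 := by
    have hCn : ((C * n : ℕ) : ℝ) / ((112 * C + 1 : ℕ) : ℝ) ≤ (n : ℝ) / 112 := by
      rw [div_le_div_iff₀ (by positivity) (by norm_num)]
      push_cast
      nlinarith [hn0, (Nat.cast_nonneg C : (0 : ℝ) ≤ C)]
    have hC0 : (0 : ℝ) ≤ C := Nat.cast_nonneg C
    have hnbig : 3 * (12 * (C : ℝ) + 16 * (112 * C + 1)) + 1 ≤ (n : ℝ) := by
      exact_mod_cast hn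
    have h1 : 8 * (n : ℝ) ^ 2 * (((C * n : ℕ) : ℝ) / ((112 * C + 1 : ℕ) : ℝ)) ≤
        8 * (n : ℝ) ^ 2 * ((n : ℝ) / 112) := mul_le_mul_of_nonneg_left hCn (by positivity)
    push_cast at h1 ⊢
    have h2 : (C : ℝ) * n * 4 ≤ C * (n : ℝ) ^ 2 * 4 := by
      have : (n : ℝ) ≤ (n : ℝ) ^ 2 := by nlinarith
      nlinarith
    have h3 : 3 * (12 * (C : ℝ) + 16 * (112 * C + 1)) * (n : ℝ) ^ 2 ≤ (n : ℝ) * (n : ℝ) ^ 2 := by
      apply mul_le_mul_of_nonneg_right _ (by positivity)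
      linarith
    have h4 : (0 : ℝ) ≤ (12 * (C : ℝ) + 16 * (112 * C + 1)) * (n : ℝ) ^ 2 := by positivity
    nlinarith [h1, h2, h3, h4]
  have hcast : ((2 * ((Finset.range n ×ˢ Finset.range (n ^ 2)).filter (fun t : ℕ × ℕ =>
      ∃ q : ℕ, q.Prime ∧ 29 ≤ q ∧ q ≤ C * n ∧
        (q : ℤ) ^ 2 ∣ cA (2 + MM * t.1) (4 + MM * t.2) e2 e4)).card : ℕ) : ℝ) ≤
      ((n ^ 3 : ℕ) : ℝ) := by
    have h1 : (((Finset.range n ×ˢ Finset.range (n ^ 2)).filter (fun t : ℕ × ℕ => ∃ q : ℕ,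
      q.Prime ∧ 29 ≤ q ∧ q ≤ C * n ∧
        (q : ℤ) ^ 2 ∣ cA (2 + MM * t.1) (4 + MM * t.2) e2 e4)).card : ℝ) ≤
      ((∑ q ∈ (Finset.Icc 29 (C * n)).filter Nat.Prime,
        (n * (2 * (n ^ 2 / q ^ 2 + 1)) + 4 * (n / q + 1) * (n ^ 2 / q + 1)) : ℕ) : ℝ) := by
      exact_mod_cast hub
    push_cast
    push_cast at h1 hreal
    linarith
  have := Nat.cast_le.1 hcast
  exact this

end Pool.Agent.Helper97.RK
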